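import Mathlib

/-!
# Definitions: ergodic chains, second eigenvalue, pseudo spectral gap, lazy version
-/

namespace Q296.PGap

open Matrix

variable {n : Type*} [Fintype n] [DecidableEq n]

/-- `M` is the transition matrix of an ergodic chain: row-stochastic, irreducible (every state can
be reached from every state) and aperiodic (for every state `i`, the only common divisor `g` of
the lengths of the possible returns from `i` to `i` is `1`). -/
structure IsErgodic (M : Matrix n n ℝ) : Prop where
  nonneg : ∀ i j, 0 ≤ M i j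
  row_sum : ∀ i, ∑ j, M i j = 1
  irreducible : ∀ i j, ∃ k : ℕ, 0 < (M ^ k) i j
  aperiodic : ∀ i, ∀ g : ℕ, (∀ k : ℕ, 0 < k → 0 < (M ^ k) i i → g ∣ k) → g = 1

/-- `π` is a stationary probability distribution of `M`. -/
structure IsStationary (π : n → ℝ) (M : Matrix n n ℝ) : Prop where
  nonneg : ∀ i, 0 ≤ π i
  sum_eq : ∑ i, π i = 1
  stationary : ∀ j, ∑ i, π i * M i j = π j

/-- The time reversal `M*(i,j) = π(j) M(j,i) / π(i)`. -/
noncomputable def timeReversal (π : n → ℝ) (M : Matrix n n ℝ) : Matrix n n ℝ :=
  Matrix.of fun i j => π j * M j i / π i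

/-- The multiplicative reversiblization `M† = M* M`. -/
noncomputable def dagger (π : n → ℝ) (M : Matrix n n ℝ) : Matrix n n ℝ :=
  timeReversal π M * M

/-- The second largest eigenvalue of a real matrix all of whose eigenvalues are real: the second
entry of the list of the roots of the characteristic polynomial, with multiplicity, in decreasing
order. -/
noncomputable def secondEigenvalue (A : Matrix n n ℝ) : ℝ :=
  (A.charpoly.roots.sort (· ≥ ·)).getD 1 0

/-- The spectral gap `1 - λ₂`. -/
noncomputable def gap (A : Matrix n n ℝ) : ℝ := 1 - secondEigenvalue A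

/-- The set of the numbers `γ((M^k)†) / k`, `k ≥ 1`. -/
def gapSet (π : n → ℝ) (M : Matrix n n ℝ) : Set ℝ :=
  {x | ∃ k : ℕ, 1 ≤ k ∧ x = gap (dagger π (M ^ k)) / k}

/-- The pseudo spectral gap `sup_{k ≥ 1} γ((M^k)†) / k`. -/
noncomputable def pseudoGap (π : n → ℝ) (M : Matrix n n ℝ) : ℝ := sSup (gapSet π M)

/-- The `α`-lazy version `α I + (1 - α) M`. -/
def lazy (α : ℝ) (M : Matrix n n ℝ) : Matrix n n ℝ := α • (1 : Matrix n n ℝ) + (1 - α) • M

end Q296.PGap
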