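import Pool.Agent.Q296.PGap.Spec

/-!
# The pseudo spectral gap of the lazy version
-/

namespace Q296.PGap

open Matrix Finset

set_option linter.unusedSectionVars false

variable {n : Type*} [Fintype n] [DecidableEq n]

/-- stochastic matrices with a positive stationary vector -/
structure Good (π : n → ℝ) (P : Matrix n n ℝ) : Prop where
  nonneg : ∀ i j, 0 ≤ P i j
  row_sum : ∀ i, ∑ j, P i j = 1
  stat : ∀ j, ∑ i, π i * P i j = π j

lemma Good.one (π : n → ℝ) : Good π (1 : Matrix n n ℝ) where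
  nonneg i j := by rw [one_apply]; split_ifs <;> norm_num
  row_sum i := by simp [one_apply]
  stat j := by simp [one_apply]

lemma Good.mul {π : n → ℝ} {P Q : Matrix n n ℝ} (hP : Good π P) (hQ : Good π Q) :
    Good π (P * Q) where
  nonneg i j := by
    rw [mul_apply]
    exact Finset.sum_nonneg fun k _ => mul_nonneg (hP.nonneg i k) (hQ.nonneg k j)
  row_sum i := by
    simp only [mul_apply]
    rw [Finset.sum_comm]
    simp only [← Finset.mul_sum, hQ.row_sum, mul_one]
    exact hP.row_sum i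
  stat j := by
    simp only [mul_apply, Finset.mul_sum]
    rw [Finset.sum_comm]
    simp only [← mul_assoc, ← Finset.sum_mul, hP.stat]
    exact hQ.stat j

lemma Good.pow {π : n → ℝ} {P : Matrix n n ℝ} (hP : Good π P) (k : ℕ) : Good π (P ^ k) := by
  induction k with
  | zero => rw [pow_zero]; exact Good.one π
  | succ k ih => rw [pow_succ]; exact ih.mul hP

lemma Good.lazy {π : n → ℝ} {P : Matrix n n ℝ} (hP : Good π P) {α : ℝ} (h0 : 0 ≤ α)
    (h1 : α ≤ 1) : Good π (lazy α P) where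
  nonneg i j := by
    simp only [PGap.lazy, Matrix.add_apply, Matrix.smul_apply, smul_eq_mul]
    exact add_nonneg (mul_nonneg h0 ((Good.one π).nonneg i j))
      (mul_nonneg (by linarith) (hP.nonneg i j))
  row_sum i := by
    simp only [PGap.lazy, Matrix.add_apply, Matrix.smul_apply, smul_eq_mul, Finset.sum_add_distrib,
      ← Finset.mul_sum, hP.row_sum, (Good.one π).row_sum]
    ring
  stat j := by
    simp only [PGap.lazy, Matrix.add_apply, Matrix.smul_apply, smul_eq_mul, mul_add, Finset.sum_add_distrib]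
    have h2 : ∀ i, π i * (α * (1 : Matrix n n ℝ) i j) = α * (π i * (1 : Matrix n n ℝ) i j) :=
      fun i => by ring
    have h3 : ∀ i, π i * ((1 - α) * P i j) = (1 - α) * (π i * P i j) := fun i => by ring
    simp only [h2, h3, ← Finset.mul_sum, hP.stat, (Good.one π).stat]
    ring

lemma nsq_nonneg {π : n → ℝ} (hπ : ∀ i, 0 < π i) (f : n → ℝ) : 0 ≤ nsq π f :=
  Finset.sum_nonneg fun i _ => mul_nonneg (hπ i).le (sq_nonneg _)

lemma sq_sum_le {w : n → ℝ} (hw : ∀ i, 0 ≤ w i) (h1 : ∑ i, w i = 1) (f : n → ℝ) :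
    (∑ i, w i * f i) ^ 2 ≤ ∑ i, w i * f i ^ 2 := by
  have h := (Even.convexOn_pow (𝕜 := ℝ) (n := 2) (by norm_num)).map_sum_le (t := Finset.univ)
    (w := w) (p := f) (fun i _ => hw i) h1 (fun i _ => Set.mem_univ _)
  simpa [smul_eq_mul] using h

lemma Good.nsq_mulVec_le {π : n → ℝ} (hπ : ∀ i, 0 < π i) {P : Matrix n n ℝ} (hP : Good π P)
    (f : n → ℝ) : nsq π (P *ᵥ f) ≤ nsq π f := by
  unfold nsq
  calc ∑ i, π i * (P *ᵥ f) i ^ 2 ≤ ∑ i, π i * ∑ j, P i j * f j ^ 2 := by
        refine Finset.sum_le_sum fun i _ => mul_le_mul_of_nonneg_left ?_ (hπ i).le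
        exact sq_sum_le (hP.nonneg i) (hP.row_sum i) f
    _ = ∑ j, π j * f j ^ 2 := by
        simp only [Finset.mul_sum]
        rw [Finset.sum_comm]
        refine Finset.sum_congr rfl fun j _ => ?_
        rw [← hP.stat j, Finset.sum_mul]
        refine Finset.sum_congr rfl fun i _ => ?_
        ring

lemma Good.mean_mulVec {π : n → ℝ} {P : Matrix n n ℝ} (hP : Good π P)
    (f : n → ℝ) : ∑ i, π i * (P *ᵥ f) i = ∑ i, π i * f i := by
  simp only [mulVec, dotProduct, Finset.mul_sum]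
  rw [Finset.sum_comm]
  refine Finset.sum_congr rfl fun j _ => ?_
  rw [← hP.stat j, Finset.sum_mul]
  refine Finset.sum_congr rfl fun i _ => ?_
  ring

lemma dagger_apply {π : n → ℝ} (P : Matrix n n ℝ) (i j : n) :
    dagger π P i j = ∑ k, π k * P k i / π i * P k j := by
  simp only [dagger, timeReversal, mul_apply, of_apply]

lemma dagger_selfAdj {π : n → ℝ} (hπ : ∀ i, 0 < π i) (P : Matrix n n ℝ) (i j : n) :
    π i * dagger π P i j = π j * dagger π P j i := by
  rw [dagger_apply, dagger_apply, Finset.mul_sum, Finset.mul_sum]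
  refine Finset.sum_congr rfl fun k _ => ?_
  have := (hπ i).ne'
  have := (hπ j).ne'
  field_simp

lemma Good.dagger_row {π : n → ℝ} (hπ : ∀ i, 0 < π i) {P : Matrix n n ℝ} (hP : Good π P)
    (i : n) : ∑ j, dagger π P i j = 1 := by
  simp only [dagger_apply]
  rw [Finset.sum_comm]
  simp only [← Finset.mul_sum, hP.row_sum, mul_one, ← Finset.sum_div, hP.stat]
  exact div_self (hπ i).ne'

lemma form_dagger {π : n → ℝ} (hπ : ∀ i, 0 < π i) (P : Matrix n n ℝ) (f : n → ℝ) :
    form π (dagger π P) f = nsq π (P *ᵥ f) := by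
  unfold form nsq
  have h1 : ∀ i, π i * (f i * ∑ j, dagger π P i j * f j) =
      ∑ k, π k * (P k i * f i * ∑ j, P k j * f j) := by
    intro i
    simp only [dagger_apply, Finset.sum_mul, Finset.mul_sum]
    rw [Finset.sum_comm]
    refine Finset.sum_congr rfl fun k _ => Finset.sum_congr rfl fun j _ => ?_
    have := (hπ i).ne'
    field_simp
  simp only [h1]
  rw [Finset.sum_comm]
  refine Finset.sum_congr rfl fun k _ => ?_
  simp only [mulVec, dotProduct]
  rw [← Finset.mul_sum, ← Finset.sum_mul, sq]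

/-- the two-sided characterization of the gap of `P†` -/
lemma Good.contract {π : n → ℝ} (hπ : ∀ i, 0 < π i) (hn : 1 < Fintype.card n)
    {P : Matrix n n ℝ} (hP : Good π P) (f : n → ℝ) (hf : ∑ i, π i * f i = 0) :
    nsq π (P *ᵥ f) ≤ (1 - gap (dagger π P)) * nsq π f := by
  have h := form_le hπ (dagger_selfAdj hπ P) hn (hP.dagger_row hπ)
    (fun f => by rw [form_dagger hπ]; exact hP.nsq_mulVec_le hπ f) f hf
  rw [form_dagger hπ] at h
  simpa [gap] using h

lemma Good.gap_ge {π : n → ℝ} (hπ : ∀ i, 0 < π i) (hn : 1 < Fintype.card n)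
    {P : Matrix n n ℝ} {c : ℝ}
    (h : ∀ f : n → ℝ, ∑ i, π i * f i = 0 → nsq π (P *ᵥ f) ≤ (1 - c) * nsq π f) :
    c ≤ gap (dagger π P) := by
  have := second_le hπ (dagger_selfAdj hπ P) hn (c := 1 - c)
    (fun f hf => by rw [form_dagger hπ]; exact h f hf)
  unfold gap
  linarith

lemma Good.gap_nonneg {π : n → ℝ} (hπ : ∀ i, 0 < π i) (hn : 1 < Fintype.card n)
    {P : Matrix n n ℝ} (hP : Good π P) : 0 ≤ gap (dagger π P) :=
  Good.gap_ge hπ hn fun f _ => by simpa using hP.nsq_mulVec_le hπ f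

lemma Good.gap_le_one {π : n → ℝ} (hπ : ∀ i, 0 < π i) (hn : 1 < Fintype.card n)
    {P : Matrix n n ℝ} (hP : Good π P) : gap (dagger π P) ≤ 1 := by
  obtain ⟨a, b, hab⟩ := Fintype.one_lt_card_iff.1 hn
  set f : n → ℝ := fun i => if i = a then π b else if i = b then - π a else 0 with hf
  have hfm : ∑ i, π i * f i = 0 := by
    have h1 : ∀ i, π i * f i = (if i = a then π a * π b else 0) +
        (if i = b then - (π a * π b) else 0) := by
      intro i
      simp only [hf]
      by_cases h1 : i = a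
      · subst h1; simp [hab]
      · by_cases h2 : i = b
        · subst h2; simp [h1]; ring
        · simp [h1, h2]
    simp only [h1, Finset.sum_add_distrib]
    simp
  have h1 := hP.contract hπ hn f hfm
  have h2 := nsq_nonneg hπ (P *ᵥ f)
  have h3 : 0 < nsq π f := by
    have : π a * f a ^ 2 ≤ nsq π f :=
      Finset.single_le_sum (f := fun i => π i * f i ^ 2)
        (fun i _ => mul_nonneg (hπ i).le (sq_nonneg _)) (Finset.mem_univ a)
    refine lt_of_lt_of_le ?_ this
    simp only [hf, if_true]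
    have := hπ a
    have := hπ b
    positivity
  by_contra hcon
  push Not at hcon
  have : (1 - gap (dagger π P)) * nsq π f < 0 := mul_neg_of_neg_of_pos (by linarith) h3
  linarith

/-! ### The binomial mixture -/

/-- binomial weights -/
noncomputable def bw (m : ℕ) (q : ℝ) (j : ℕ) : ℝ := (m.choose j : ℝ) * q ^ j * (1 - q) ^ (m - j)

lemma bw_nonneg {m : ℕ} {q : ℝ} (h0 : 0 ≤ q) (h1 : q ≤ 1) (j : ℕ) : 0 ≤ bw m q j := by
  unfold bw
  have : 0 ≤ 1 - q := by linarith
  positivity

lemma bw_sum (m : ℕ) (q : ℝ) : ∑ j ∈ range (m + 1), bw m q j = 1 := by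
  have h := add_pow q (1 - q) m
  have h2 : (q + (1 - q)) ^ m = 1 := by ring_nf
  rw [h2] at h
  rw [h]
  refine Finset.sum_congr rfl fun j _ => ?_
  unfold bw; ring

lemma bw_var (m : ℕ) (q : ℝ) :
    ∑ j ∈ range (m + 1), ((m : ℝ) * q - j) ^ 2 * bw m q j = m * q * (1 - q) := by
  have h := congrArg (Polynomial.eval q) (bernsteinPolynomial.variance ℝ m)
  simpa [Polynomial.eval_finsetSum, bernsteinPolynomial, bw] using h

lemma bw_tail {m k : ℕ} {q : ℝ} (h0 : 0 < q) (h1 : q ≤ 1) (hk : 1 ≤ k)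
    (hm : 4 * (k : ℝ) ≤ m * q) :
    ∑ j ∈ (range (m + 1)).filter (fun j => j < k), bw m q j ≤ 4 / 9 := by
  have hk' : (1 : ℝ) ≤ k := by exact_mod_cast hk
  set x := (m : ℝ) * q with hx
  have hxpos : 0 < x := by linarith
  set T := ∑ j ∈ (range (m + 1)).filter (fun j => j < k), bw m q j with hT
  have h2 : (3 / 4 * x) ^ 2 * T ≤ x := by
    calc (3 / 4 * x) ^ 2 * T
        = ∑ j ∈ (range (m + 1)).filter (fun j => j < k), (3 / 4 * x) ^ 2 * bw m q j := by
          rw [hT, Finset.mul_sum]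
      _ ≤ ∑ j ∈ (range (m + 1)).filter (fun j => j < k), (x - j) ^ 2 * bw m q j := by
          refine Finset.sum_le_sum fun j hj => ?_
          refine mul_le_mul_of_nonneg_right ?_ (bw_nonneg h0.le h1 j)
          have hjk : (j : ℝ) ≤ k := by
            exact_mod_cast (Finset.mem_filter.1 hj).2.le
          have : 3 / 4 * x ≤ x - j := by linarith
          exact pow_le_pow_left₀ (by positivity) this 2
      _ ≤ ∑ j ∈ range (m + 1), (x - j) ^ 2 * bw m q j := by
          refine Finset.sum_le_sum_of_subset_of_nonneg (Finset.filter_subset _ _) ?_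
          intro j _ _
          exact mul_nonneg (sq_nonneg _) (bw_nonneg h0.le h1 j)
      _ = x * (1 - q) := by rw [bw_var]
      _ ≤ x := by nlinarith
  by_contra hcon
  push Not at hcon
  have h3 : (3 / 4 * x) ^ 2 * (4 / 9) < (3 / 4 * x) ^ 2 * T :=
    mul_lt_mul_of_pos_left hcon (by positivity)
  nlinarith

lemma lazy_pow_mulVec (α : ℝ) (M : Matrix n n ℝ) (m : ℕ) (f : n → ℝ) (i : n) :
    ((lazy α M) ^ m *ᵥ f) i = ∑ j ∈ range (m + 1), bw m (1 - α) j * ((M ^ j) *ᵥ f) i := by
  have hc : Commute ((1 - α) • M) (α • (1 : Matrix n n ℝ)) := by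
    apply Commute.smul_right
    exact Commute.one_right _
  have h1 : (lazy α M) ^ m = ∑ j ∈ range (m + 1), bw m (1 - α) j • M ^ j := by
    rw [lazy, add_comm, hc.add_pow]
    refine Finset.sum_congr rfl fun j _ => ?_
    rw [smul_pow, smul_pow, one_pow, smul_mul_smul_comm, mul_one]
    rw [← nsmul_eq_mul']
    rw [← Nat.cast_smul_eq_nsmul ℝ, smul_smul]
    unfold bw
    congr 1
    ring_nf
  rw [h1, sum_mulVec]
  simp [smul_mulVec]

/-- the key estimate -/
lemma lazy_contract {π : n → ℝ} (hπ : ∀ i, 0 < π i) (hn : 1 < Fintype.card n)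
    {M : Matrix n n ℝ} (hM : Good π M) {α : ℝ} (h0 : 0 ≤ α) (h1 : α < 1) {k m : ℕ} (hk : 1 ≤ k)
    (hm : 4 * (k : ℝ) ≤ m * (1 - α)) :
    5 / 9 * gap (dagger π (M ^ k)) ≤ gap (dagger π ((lazy α M) ^ m)) := by
  set q := 1 - α with hq
  have hq0 : 0 < q := by rw [hq]; linarith
  have hq1 : q ≤ 1 := by rw [hq]; linarith
  set g := gap (dagger π (M ^ k)) with hg
  have hg0 : 0 ≤ g := (hM.pow k).gap_nonneg hπ hn
  apply Good.gap_ge hπ hn
  intro f hf
  have hN := nsq_nonneg hπ f
  have hb : ∀ j, nsq π ((M ^ j) *ᵥ f) ≤ (1 - (if j < k then 0 else g)) * nsq π f := by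
    intro j
    split_ifs with hj
    · rw [sub_zero, one_mul]
      exact (hM.pow j).nsq_mulVec_le hπ f
    · push Not at hj
      obtain ⟨l, rfl⟩ := Nat.exists_eq_add_of_le hj
      rw [add_comm k l, pow_add, ← mulVec_mulVec]
      exact ((hM.pow l).nsq_mulVec_le hπ _).trans ((hM.pow k).contract hπ hn f hf)
  calc nsq π ((lazy α M) ^ m *ᵥ f)
      ≤ ∑ i, π i * ∑ j ∈ range (m + 1), bw m q j * ((M ^ j) *ᵥ f) i ^ 2 := by
        unfold nsq
        refine Finset.sum_le_sum fun i _ => mul_le_mul_of_nonneg_left ?_ (hπ i).le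
        rw [lazy_pow_mulVec]
        have h := (Even.convexOn_pow (𝕜 := ℝ) (n := 2) (by norm_num)).map_sum_le
          (t := range (m + 1)) (w := fun j => bw m q j) (p := fun j => ((M ^ j) *ᵥ f) i)
          (fun j _ => bw_nonneg hq0.le hq1 j) (bw_sum m q) (fun j _ => Set.mem_univ _)
        simpa [smul_eq_mul] using h
    _ = ∑ j ∈ range (m + 1), bw m q j * nsq π ((M ^ j) *ᵥ f) := by
        unfold nsq
        simp only [Finset.mul_sum]
        rw [Finset.sum_comm]
        refine Finset.sum_congr rfl fun j _ => Finset.sum_congr rfl fun i _ => ?_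
        ring
    _ ≤ ∑ j ∈ range (m + 1), bw m q j * ((1 - (if j < k then 0 else g)) * nsq π f) :=
        Finset.sum_le_sum fun j _ => mul_le_mul_of_nonneg_left (hb j) (bw_nonneg hq0.le hq1 j)
    _ = ((∑ j ∈ range (m + 1), bw m q j) * (1 - g) + g *
          ∑ j ∈ (range (m + 1)).filter (fun j => j < k), bw m q j) * nsq π f := by
        rw [Finset.sum_filter, Finset.sum_mul, Finset.mul_sum, ← Finset.sum_add_distrib,
          Finset.sum_mul]
        refine Finset.sum_congr rfl fun j _ => ?_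
        split_ifs <;> ring
    _ ≤ (1 - 5 / 9 * g) * nsq π f := by
        refine mul_le_mul_of_nonneg_right ?_ hN
        rw [bw_sum]
        have := bw_tail hq0 hq1 hk hm
        nlinarith

/-! ### Positivity of the stationary distribution and attainment of the supremum -/

lemma stationary_pos {M : Matrix n n ℝ} (hM : IsErgodic M) {π : n → ℝ}
    (hπ : IsStationary π M) : (∀ i, 0 < π i) ∧ Good π M := by
  have hG : Good π M := ⟨hM.nonneg, hM.row_sum, hπ.stationary⟩
  refine ⟨fun j => ?_, hG⟩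
  obtain ⟨i, hi⟩ : ∃ i, 0 < π i := by
    by_contra hcon
    push Not at hcon
    have : ∑ i, π i ≤ 0 := Finset.sum_nonpos fun i _ => hcon i
    rw [hπ.sum_eq] at this
    linarith
  obtain ⟨k, hk⟩ := hM.irreducible i j
  have h1 := (hG.pow k).stat j
  rw [← h1]
  have h2 : π i * (M ^ k) i j ≤ ∑ i, π i * (M ^ k) i j :=
    Finset.single_le_sum (f := fun i => π i * (M ^ k) i j)
      (fun i _ => mul_nonneg (hπ.nonneg i) ((hG.pow k).nonneg i j)) (Finset.mem_univ i)
  exact lt_of_lt_of_le (mul_pos hi hk) h2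

lemma isGreatest {π : n → ℝ} (hπ : ∀ i, 0 < π i) (hn : 1 < Fintype.card n)
    {M : Matrix n n ℝ} (hM : Good π M) : IsGreatest (gapSet π M) (pseudoGap π M) := by
  have hne : (gapSet π M).Nonempty := ⟨_, 1, le_refl 1, rfl⟩
  have hnn : ∀ x ∈ gapSet π M, 0 ≤ x := by
    rintro x ⟨k, hk, rfl⟩
    exact div_nonneg ((hM.pow k).gap_nonneg hπ hn) (Nat.cast_nonneg k)
  have hbdd : BddAbove (gapSet π M) := by
    refine ⟨1, ?_⟩
    rintro x ⟨k, hk, rfl⟩
    have hk' : (1 : ℝ) ≤ k := by exact_mod_cast hk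
    rw [div_le_one (by linarith)]
    exact ((hM.pow k).gap_le_one hπ hn).trans hk'
  have hub : ∀ x ∈ gapSet π M, x ≤ pseudoGap π M := fun x hx => le_csSup hbdd hx
  refine ⟨?_, hub⟩
  by_contra hcon
  -- the supremum is positive
  have hpos : 0 < pseudoGap π M := by
    rcases lt_or_eq_of_le (le_trans (hnn _ hne.some_mem) (hub _ hne.some_mem)) with h | h
    · exact h
    · exfalso
      apply hcon
      have h2 : hne.some = pseudoGap π M :=
        le_antisymm (hub _ hne.some_mem) (by rw [← h]; exact hnn _ hne.some_mem)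
      rw [← h2]
      exact hne.some_mem
  set G := pseudoGap π M with hG
  -- finitely many candidates
  obtain ⟨K, hK⟩ := exists_nat_gt (2 / G)
  set a : ℕ → ℝ := fun k => gap (dagger π (M ^ k)) / k with ha
  have hlt : ∀ k, 1 ≤ k → a k < G := by
    intro k hk
    rcases lt_or_eq_of_le (hub _ ⟨k, hk, rfl⟩) with h | h
    · exact h
    · exfalso; apply hcon; rw [← h]; exact ⟨k, hk, rfl⟩
  have hKpos : 1 ≤ K := by
    by_contra h0
    have : K = 0 := by omega
    rw [this] at hK
    have : 0 < 2 / G := by positivity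
    simp at hK
    linarith
  obtain ⟨k0, hk0, hmax⟩ := Finset.exists_max_image (Finset.Icc 1 K) a ⟨1, by simp [hKpos]⟩
  have hk01 : 1 ≤ k0 := (Finset.mem_Icc.1 hk0).1
  have hc : ∀ x ∈ gapSet π M, x ≤ max (a k0) (G / 2) := by
    rintro x ⟨k, hk, rfl⟩
    by_cases hkK : k ≤ K
    · exact le_max_of_le_left (hmax k (Finset.mem_Icc.2 ⟨hk, hkK⟩))
    · apply le_max_of_le_right
      push Not at hkK
      have hkK' : (K : ℝ) < k := by exact_mod_cast hkK
      have hkp : (0 : ℝ) < k := by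
        have : (1 : ℝ) ≤ k := by exact_mod_cast hk
        linarith
      rw [div_le_iff₀ hkp]
      have h1 := (hM.pow k).gap_le_one hπ hn
      have h2 : 2 < G * k := by
        rw [div_lt_iff₀ hpos] at hK
        nlinarith
      linarith
  have h3 : G ≤ max (a k0) (G / 2) := csSup_le hne hc
  rcases le_max_iff.1 h3 with h | h
  · have := hlt k0 hk01; linarith
  · linarith

/-- the main inequality -/
lemma main_ineq {π : n → ℝ} (hπ : ∀ i, 0 < π i) (hn : 1 < Fintype.card n)
    {M : Matrix n n ℝ} (hM : Good π M) {α : ℝ} (h0 : 0 ≤ α) (h1 : α < 1) :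
    (1 - α) / 9 * pseudoGap π M ≤ pseudoGap π (lazy α M) := by
  have hL : Good π (lazy α M) := hM.lazy h0 h1.le
  obtain ⟨k, hk, hkeq⟩ := (isGreatest hπ hn hM).1
  rw [hkeq]
  set q := 1 - α with hq
  have hq0 : 0 < q := by rw [hq]; linarith
  have hq1 : q ≤ 1 := by rw [hq]; linarith
  have hk' : (1 : ℝ) ≤ k := by exact_mod_cast hk
  set m := ⌈4 * (k : ℝ) / q⌉₊ with hm
  have hm1 : 4 * (k : ℝ) / q ≤ m := Nat.le_ceil _
  have hm2 : (m : ℝ) < 4 * (k : ℝ) / q + 1 := Nat.ceil_lt_add_one (by positivity)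
  have hm3 : 4 * (k : ℝ) ≤ m * q := by rwa [div_le_iff₀ hq0] at hm1
  have hm4 : (m : ℝ) * q ≤ 5 * k := by
    have h2 : (m : ℝ) * q < (4 * (k : ℝ) / q + 1) * q := mul_lt_mul_of_pos_right hm2 hq0
    have h3 : (4 * (k : ℝ) / q + 1) * q = 4 * k + q := by field_simp
    rw [h3] at h2
    linarith
  have hmpos : (0 : ℝ) < m := by
    by_contra hcon
    push Not at hcon
    have : (m : ℝ) * q ≤ 0 := mul_nonpos_of_nonpos_of_nonneg hcon hq0.le
    linarith
  have hm1' : 1 ≤ m := by exact_mod_cast hmpos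
  have key := lazy_contract hπ hn hM h0 h1 hk hm3
  have hmem : gap (dagger π ((lazy α M) ^ m)) / m ≤ pseudoGap π (lazy α M) :=
    (isGreatest hπ hn hL).2 ⟨m, hm1', rfl⟩
  refine le_trans ?_ hmem
  set g := gap (dagger π (M ^ k))
  have hg0 : 0 ≤ g := (hM.pow k).gap_nonneg hπ hn
  rw [le_div_iff₀ hmpos]
  refine le_trans ?_ key
  have hkpos : (0 : ℝ) < k := by linarith
  have h5 : q / 9 * (g / k) * m = g * (m * q) / (9 * k) := by field_simp
  rw [h5, div_le_iff₀ (by positivity)]
  nlinarith [mul_le_mul_of_nonneg_left hm4 hg0]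

end Q296.PGap
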