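import Pool.Agent.Q296.PGap.Defs

/-!
# The second eigenvalue of a matrix which is self-adjoint in `L²(π)`
-/

namespace Q296.PGap

open Matrix Finset

set_option linter.unusedSectionVars false

variable {n : Type*} [Fintype n] [DecidableEq n]

/-- the symmetrized matrix -/
noncomputable def symm (π : n → ℝ) (A : Matrix n n ℝ) : Matrix n n ℝ :=
  Matrix.of fun i j => Real.sqrt (π i) * A i j / Real.sqrt (π j)

lemma symm_isHermitian {π : n → ℝ} (hπ : ∀ i, 0 < π i) {A : Matrix n n ℝ}
    (hA : ∀ i j, π i * A i j = π j * A j i) : (symm π A).IsHermitian := by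
  ext i j
  simp only [symm, conjTranspose_apply, of_apply, star_trivial]
  have hi := Real.sqrt_pos.2 (hπ i)
  have hj := Real.sqrt_pos.2 (hπ j)
  have h1 := Real.mul_self_sqrt (hπ i).le
  have h2 := Real.mul_self_sqrt (hπ j).le
  rw [div_eq_div_iff hi.ne' hj.ne']
  calc Real.sqrt (π j) * A j i * Real.sqrt (π j) = (Real.sqrt (π j) * Real.sqrt (π j)) * A j i := by
        ring
    _ = π j * A j i := by rw [h2]
    _ = π i * A i j := (hA i j).symm
    _ = (Real.sqrt (π i) * Real.sqrt (π i)) * A i j := by rw [h1]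
    _ = _ := by ring

lemma symm_charpoly {π : n → ℝ} (hπ : ∀ i, 0 < π i) (A : Matrix n n ℝ) :
    (symm π A).charpoly = A.charpoly := by
  have h : symm π A = diagonal (fun i => Real.sqrt (π i)) *
      (A * diagonal (fun i => (Real.sqrt (π i))⁻¹)) := by
    ext i j
    rw [diagonal_mul, mul_diagonal]
    simp [symm, div_eq_mul_inv, mul_assoc]
  rw [h, charpoly_mul_comm, mul_assoc, diagonal_mul_diagonal]
  have h2 : (fun i => (Real.sqrt (π i))⁻¹ * Real.sqrt (π i)) = fun _ => (1 : ℝ) := by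
    ext i
    exact inv_mul_cancel₀ (Real.sqrt_pos.2 (hπ i)).ne'
  rw [h2]
  simp

lemma second_eq {π : n → ℝ} (hπ : ∀ i, 0 < π i) {A : Matrix n n ℝ}
    (hA : ∀ i j, π i * A i j = π j * A j i) (hn : 1 < Fintype.card n) :
    secondEigenvalue A = (symm_isHermitian hπ hA).eigenvalues₀ ⟨1, hn⟩ := by
  have h := (symm_isHermitian hπ hA).sort_roots_charpoly_eq_eigenvalues₀
  have h2 : (symm π A).charpoly.roots.map (RCLike.re : ℝ → ℝ) = (symm π A).charpoly.roots := by
    conv_rhs => rw [← Multiset.map_id (symm π A).charpoly.roots]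
    rfl
  rw [h2, symm_charpoly hπ] at h
  rw [secondEigenvalue, h]
  rw [List.getD_eq_getElem _ _ (by simpa using hn)]
  simp

/-- the quadratic form of `A` in `L²(π)` -/
def form (π : n → ℝ) (A : Matrix n n ℝ) (f : n → ℝ) : ℝ :=
  ∑ i, π i * (f i * ∑ j, A i j * f j)

/-- squared norm in `L²(π)` -/
def nsq (π : n → ℝ) (f : n → ℝ) : ℝ := ∑ i, π i * f i ^ 2

lemma form_symm {π : n → ℝ} (hπ : ∀ i, 0 < π i) (A : Matrix n n ℝ) (x : n → ℝ) :
    form π A (fun i => x i / Real.sqrt (π i)) = ∑ i, x i * (symm π A *ᵥ x) i := by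
  unfold form
  refine Finset.sum_congr rfl fun i _ => ?_
  have hi := Real.sqrt_pos.2 (hπ i)
  have h1 := Real.mul_self_sqrt (hπ i).le
  have h2 : (symm π A *ᵥ x) i = Real.sqrt (π i) * ∑ j, A i j * (x j / Real.sqrt (π j)) := by
    simp only [symm, mulVec, dotProduct, of_apply, Finset.mul_sum]
    refine Finset.sum_congr rfl fun j _ => ?_
    ring
  rw [h2]
  set S := ∑ j, A i j * (x j / Real.sqrt (π j))
  calc π i * (x i / Real.sqrt (π i) * S)
      = (Real.sqrt (π i) * Real.sqrt (π i)) * (x i / Real.sqrt (π i) * S) := by rw [h1]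
    _ = _ := by field_simp

lemma nsq_symm {π : n → ℝ} (hπ : ∀ i, 0 < π i) (x : n → ℝ) :
    nsq π (fun i => x i / Real.sqrt (π i)) = ∑ i, x i ^ 2 := by
  unfold nsq
  refine Finset.sum_congr rfl fun i _ => ?_
  have hi := Real.sqrt_pos.2 (hπ i)
  have h1 := Real.sq_sqrt (hπ i).le
  rw [div_pow, h1]
  field_simp [(hπ i).ne']

lemma mean_symm {π : n → ℝ} (hπ : ∀ i, 0 < π i) (x : n → ℝ) :
    ∑ i, π i * (x i / Real.sqrt (π i)) = ∑ i, Real.sqrt (π i) * x i := by
  refine Finset.sum_congr rfl fun i _ => ?_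
  have hi := Real.sqrt_pos.2 (hπ i)
  have h1 := Real.mul_self_sqrt (hπ i).le
  calc π i * (x i / Real.sqrt (π i))
      = (Real.sqrt (π i) * Real.sqrt (π i)) * (x i / Real.sqrt (π i)) := by rw [h1]
    _ = _ := by field_simp

/-- upper bound for the second eigenvalue -/
lemma second_le {π : n → ℝ} (hπ : ∀ i, 0 < π i) {A : Matrix n n ℝ}
    (hA : ∀ i j, π i * A i j = π j * A j i) (hn : 1 < Fintype.card n) {c : ℝ}
    (h : ∀ f : n → ℝ, ∑ i, π i * f i = 0 → form π A f ≤ c * nsq π f) :
    secondEigenvalue A ≤ c := by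
  rw [second_eq hπ hA hn]
  set H := symm_isHermitian hπ hA with hH
  set e := (Fintype.equivOfCardEq (Fintype.card_fin (Fintype.card n)) :
    Fin (Fintype.card n) ≃ n) with he
  set i0 : n := e ⟨0, by omega⟩ with hi0
  set i1 : n := e ⟨1, hn⟩ with hi1
  have hne : i0 ≠ i1 := by
    intro hh
    have := e.injective hh
    simp at this
  have l0 : H.eigenvalues i0 = H.eigenvalues₀ ⟨0, by omega⟩ := by
    simp only [IsHermitian.eigenvalues, hi0, he, Equiv.symm_apply_apply]
  have l1 : H.eigenvalues i1 = H.eigenvalues₀ ⟨1, hn⟩ := by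
    simp only [IsHermitian.eigenvalues, hi1, he, Equiv.symm_apply_apply]
  have hle : H.eigenvalues i1 ≤ H.eigenvalues i0 := by
    rw [l0, l1]
    apply H.eigenvalues₀_antitone
    simp [Fin.le_def]
  rw [← l1]
  set v0 : n → ℝ := (H.eigenvectorBasis i0).ofLp with hv0
  set v1 : n → ℝ := (H.eigenvectorBasis i1).ofLp with hv1
  have hS0 : symm π A *ᵥ v0 = H.eigenvalues i0 • v0 := H.mulVec_eigenvectorBasis i0
  have hS1 : symm π A *ᵥ v1 = H.eigenvalues i1 • v1 := H.mulVec_eigenvectorBasis i1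
  have n0 : ∑ i, v0 i * v0 i = 1 := by
    have := H.eigenvectorBasis.orthonormal.1 i0
    have h2 : inner ℝ (H.eigenvectorBasis i0) (H.eigenvectorBasis i0) = (1 : ℝ) := by
      rw [real_inner_self_eq_norm_sq, this]; norm_num
    rw [PiLp.inner_apply] at h2
    simpa [← sq] using h2
  have n1 : ∑ i, v1 i * v1 i = 1 := by
    have := H.eigenvectorBasis.orthonormal.1 i1
    have h2 : inner ℝ (H.eigenvectorBasis i1) (H.eigenvectorBasis i1) = (1 : ℝ) := by
      rw [real_inner_self_eq_norm_sq, this]; norm_num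
    rw [PiLp.inner_apply] at h2
    simpa [← sq] using h2
  have n01 : ∑ i, v0 i * v1 i = 0 := by
    have h2 : inner ℝ (H.eigenvectorBasis i1) (H.eigenvectorBasis i0) = (0 : ℝ) :=
      H.eigenvectorBasis.orthonormal.2 hne.symm
    rw [PiLp.inner_apply] at h2
    simpa [mul_comm] using h2
  set a := ∑ i, Real.sqrt (π i) * v0 i with ha
  set b := ∑ i, Real.sqrt (π i) * v1 i with hb
  obtain ⟨p, q, hpq, hpos⟩ : ∃ p q : ℝ, p * a + q * b = 0 ∧ 0 < p ^ 2 + q ^ 2 := by
    by_cases hz : a = 0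
    · exact ⟨1, 0, by simp [hz], by norm_num⟩
    · exact ⟨b, -a, by ring, by nlinarith [sq_nonneg b, mul_self_pos.2 hz]⟩
  set x : n → ℝ := fun i => p * v0 i + q * v1 i with hx
  have hmean : ∑ i, π i * (x i / Real.sqrt (π i)) = 0 := by
    rw [mean_symm hπ]
    have : ∑ i, Real.sqrt (π i) * x i = p * a + q * b := by
      rw [ha, hb, Finset.mul_sum, Finset.mul_sum, ← Finset.sum_add_distrib]
      refine Finset.sum_congr rfl fun i _ => ?_
      simp only [hx]; ring
    rw [this, hpq]
  have hf := h _ hmean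
  rw [form_symm hπ, nsq_symm hπ] at hf
  have hSx : symm π A *ᵥ x = fun i => p * (H.eigenvalues i0 * v0 i) +
      q * (H.eigenvalues i1 * v1 i) := by
    have : x = p • v0 + q • v1 := by ext i; simp [hx]
    rw [this, mulVec_add, mulVec_smul, mulVec_smul, hS0, hS1]
    ext i; simp
  have e1 : ∑ i, x i * (symm π A *ᵥ x) i =
      p ^ 2 * H.eigenvalues i0 + q ^ 2 * H.eigenvalues i1 := by
    rw [hSx]
    have : ∀ i, x i * (p * (H.eigenvalues i0 * v0 i) + q * (H.eigenvalues i1 * v1 i)) =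
        (p ^ 2 * H.eigenvalues i0) * (v0 i * v0 i) + (q ^ 2 * H.eigenvalues i1) * (v1 i * v1 i)
        + (p * q * (H.eigenvalues i0 + H.eigenvalues i1)) * (v0 i * v1 i) := by
      intro i; simp only [hx]; ring
    simp only [this]
    rw [Finset.sum_add_distrib, Finset.sum_add_distrib, ← Finset.mul_sum, ← Finset.mul_sum,
      ← Finset.mul_sum, n0, n1, n01]
    ring
  have e2 : ∑ i, x i ^ 2 = p ^ 2 + q ^ 2 := by
    have : ∀ i, x i ^ 2 = p ^ 2 * (v0 i * v0 i) + q ^ 2 * (v1 i * v1 i)
        + (2 * p * q) * (v0 i * v1 i) := by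
      intro i; simp only [hx]; ring
    simp only [this]
    rw [Finset.sum_add_distrib, Finset.sum_add_distrib, ← Finset.mul_sum, ← Finset.mul_sum,
      ← Finset.mul_sum, n0, n1, n01]
    ring
  rw [e1, e2] at hf
  have h3 : H.eigenvalues i1 * (p ^ 2 + q ^ 2) ≤ c * (p ^ 2 + q ^ 2) := by
    refine le_trans ?_ hf
    nlinarith [sq_nonneg p, sq_nonneg q, mul_le_mul_of_nonneg_left hle (sq_nonneg p)]
  exact le_of_mul_le_mul_right h3 hpos

/-- the variational lower bound for the second eigenvalue -/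
lemma form_le {π : n → ℝ} (hπ : ∀ i, 0 < π i) {A : Matrix n n ℝ}
    (hA : ∀ i j, π i * A i j = π j * A j i) (hn : 1 < Fintype.card n)
    (hrow : ∀ i, ∑ j, A i j = 1)
    (hc : ∀ f : n → ℝ, form π A f ≤ nsq π f) (f : n → ℝ) (hf : ∑ i, π i * f i = 0) :
    form π A f ≤ secondEigenvalue A * nsq π f := by
  have hnsq : 0 ≤ nsq π f := Finset.sum_nonneg fun i _ => mul_nonneg (hπ i).le (sq_nonneg _)
  by_cases h1 : 1 ≤ secondEigenvalue A
  · calc form π A f ≤ nsq π f := hc f
      _ = 1 * nsq π f := (one_mul _).symm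
      _ ≤ _ := mul_le_mul_of_nonneg_right h1 hnsq
  push Not at h1
  rw [second_eq hπ hA hn] at h1 ⊢
  set H := symm_isHermitian hπ hA with hH
  set e := (Fintype.equivOfCardEq (Fintype.card_fin (Fintype.card n)) :
    Fin (Fintype.card n) ≃ n) with he
  set i0 : n := e ⟨0, by omega⟩ with hi0
  have hother : ∀ i, i ≠ i0 → H.eigenvalues i ≤ H.eigenvalues₀ ⟨1, hn⟩ := by
    intro i hi
    have h2 : H.eigenvalues i = H.eigenvalues₀ (e.symm i) := rfl
    rw [h2]
    apply H.eigenvalues₀_antitone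
    rw [Fin.le_def]
    by_contra hlt
    push Not at hlt
    simp only at hlt
    have h3 : (e.symm i).val = 0 := by omega
    apply hi
    rw [hi0]
    apply e.symm.injective
    rw [Equiv.symm_apply_apply]
    exact Fin.ext h3
  -- the vector `u`
  set u : EuclideanSpace ℝ n := WithLp.toLp 2 (fun i => Real.sqrt (π i)) with hu
  set x : EuclideanSpace ℝ n := WithLp.toLp 2 (fun i => Real.sqrt (π i) * f i) with hx
  have hfx : f = fun i => x i / Real.sqrt (π i) := by
    ext i
    simp only [hx]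
    rw [mul_div_cancel_left₀]
    exact (Real.sqrt_pos.2 (hπ i)).ne'
  have hxmean : ∑ i, Real.sqrt (π i) * x i = 0 := by
    rw [← mean_symm hπ]
    have : ∀ i, x i / Real.sqrt (π i) = f i := fun i => (congrFun hfx i).symm
    simp only [this]
    exact hf
  have key : form π A f = ∑ i, x i * (symm π A *ᵥ x.ofLp) i := by
    conv_lhs => rw [hfx]
    exact form_symm hπ A x.ofLp
  have key2 : nsq π f = ∑ i, x i ^ 2 := by
    conv_lhs => rw [hfx]
    exact nsq_symm hπ x.ofLp
  have hSu : symm π A *ᵥ u.ofLp = u.ofLp := by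
    ext i
    simp only [symm, mulVec, dotProduct, of_apply, hu]
    have : ∀ j, Real.sqrt (π i) * A i j / Real.sqrt (π j) * Real.sqrt (π j) =
        Real.sqrt (π i) * A i j := by
      intro j
      exact div_mul_cancel₀ _ (Real.sqrt_pos.2 (hπ j)).ne'
    simp only [this]
    rw [← Finset.mul_sum, hrow, mul_one]
  -- expansion in the eigenbasis
  set B := H.eigenvectorBasis with hB
  have hinner : ∀ y z : EuclideanSpace ℝ n, inner ℝ y z = ∑ i, y i * z i := by
    intro y z
    rw [PiLp.inner_apply]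
    refine Finset.sum_congr rfl fun i _ => ?_
    simp [mul_comm]
  have hsymm : ∀ y z : EuclideanSpace ℝ n,
      ∑ i, y i * (symm π A *ᵥ z.ofLp) i = ∑ i, (symm π A *ᵥ y.ofLp) i * z i := by
    intro y z
    have h1 : y.ofLp ⬝ᵥ (symm π A *ᵥ z.ofLp) = (symm π A *ᵥ y.ofLp) ⬝ᵥ z.ofLp := by
      rw [dotProduct_mulVec, ← mulVec_transpose]
      have h2 : (symm π A)ᴴ = symm π A := H
      rw [conjTranspose_eq_transpose_of_trivial] at h2
      rw [h2]
    exact h1
  have hBS : ∀ (i : n) (z : EuclideanSpace ℝ n),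
      ∑ j, B i j * (symm π A *ᵥ z.ofLp) j = H.eigenvalues i * inner ℝ (B i) z := by
    intro i z
    rw [hsymm (B i) z]
    have h3 : symm π A *ᵥ (B i).ofLp = H.eigenvalues i • (B i).ofLp := H.mulVec_eigenvectorBasis i
    rw [h3, hinner, Finset.mul_sum]
    refine Finset.sum_congr rfl fun j _ => ?_
    simp [mul_assoc]
  have hBu : ∀ i, i ≠ i0 → inner ℝ (B i) u = 0 := by
    intro i hi
    have h3 := hBS i u
    rw [hSu, ← hinner] at h3
    have h4 := hother i hi
    have h5 : (1 - H.eigenvalues i) * inner ℝ (B i) u = 0 := by linarith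
    rcases mul_eq_zero.1 h5 with h6 | h6
    · exfalso; linarith
    · exact h6
  have hu0 : inner ℝ (B i0) u ≠ 0 := by
    intro h0
    have h6 : u = 0 := by
      rw [← B.sum_repr' u]
      apply Finset.sum_eq_zero
      intro i _
      by_cases hi : i = i0
      · rw [hi, h0, zero_smul]
      · rw [hBu i hi, zero_smul]
    have h7 : u i0 = 0 := by rw [h6]; rfl
    simp only [hu] at h7
    exact (Real.sqrt_pos.2 (hπ i0)).ne' h7
  have hBx : inner ℝ (B i0) x = 0 := by
    have h8 : inner ℝ u x = (0 : ℝ) := by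
      rw [hinner]
      exact hxmean
    rw [← B.sum_inner_mul_inner u x] at h8
    rw [Finset.sum_eq_single i0] at h8
    · rcases mul_eq_zero.1 h8 with h9 | h9
      · exfalso; apply hu0; rw [real_inner_comm]; exact h9
      · exact h9
    · intro i _ hi
      rw [real_inner_comm, hBu i hi, zero_mul]
    · intro h; exact absurd (Finset.mem_univ _) h
  rw [key, key2]
  have hxx : ∑ i, x i ^ 2 = ∑ i, inner ℝ (B i) x * inner ℝ (B i) x := by
    have h9 := B.sum_inner_mul_inner x x
    rw [hinner x x] at h9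
    calc ∑ i, x i ^ 2 = ∑ i, x i * x i := Finset.sum_congr rfl fun i _ => sq (x i)
      _ = ∑ i, inner ℝ x (B i) * inner ℝ (B i) x := h9.symm
      _ = _ := by
        refine Finset.sum_congr rfl fun i _ => ?_
        rw [real_inner_comm]
  have hxSx : ∑ i, x i * (symm π A *ᵥ x.ofLp) i =
      ∑ i, H.eigenvalues i * (inner ℝ (B i) x * inner ℝ (B i) x) := by
    set y : EuclideanSpace ℝ n := WithLp.toLp 2 (symm π A *ᵥ x.ofLp) with hy
    have h9 := B.sum_inner_mul_inner x y
    rw [hinner x y] at h9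
    calc ∑ i, x i * (symm π A *ᵥ x.ofLp) i = ∑ i, inner ℝ x (B i) * inner ℝ (B i) y := h9.symm
      _ = _ := by
        refine Finset.sum_congr rfl fun i _ => ?_
        rw [real_inner_comm, hinner (B i) y]
        have := hBS i x
        simp only [hy]
        rw [this]
        ring
  rw [hxx, hxSx, Finset.mul_sum]
  refine Finset.sum_le_sum fun i _ => ?_
  by_cases hi : i = i0
  · rw [hi, hBx]; simp
  · exact mul_le_mul_of_nonneg_right (hother i hi) (mul_self_nonneg _)

end Q296.PGap
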